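import Mathlib
import Pool.Agent.Helper207.EklofHerzog

set_option autoImplicit false

namespace Pool.Agent.Results.MP_aa9b56_al.NoPureUniserial

open Pool.Agent.Helper207.EklofHerzog EH

/-- There are a commutative valuation ring `R` (ideals totally ordered) and a nonzero indecomposable injective (hence
pure-injective) `R`-module `N` such that no nonzero uniserial `R`-module admits a pure monomorphism to `N`. -/
theorem result :
    ∃ (R : Type) (_ : CommRing R), (∀ I J : Ideal R, I ≤ J ∨ J ≤ I) ∧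
      ∃ (N : Type) (_ : AddCommGroup N) (_ : Module R N), Nontrivial N ∧
        (∀ A B : Submodule R N, IsCompl A B → A = ⊥ ∨ B = ⊥) ∧
        Module.Injective R N ∧
        (∀ (X : Type) [AddCommGroup X] [Module R X] (g : N →ₗ[R] X),
          (∀ (Y : Type) [AddCommGroup Y] [Module R Y], Function.Injective (LinearMap.lTensor Y g)) →
          ∃ h : X →ₗ[R] N, h ∘ₗ g = LinearMap.id) ∧
        ∀ (M : Type) [AddCommGroup M] [Module R M], (∀ A B : Submodule R M, A ≤ B ∨ B ≤ A) → Nontrivial M →
          ¬ ∃ i : M →ₗ[R] N,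
            ∀ (Y : Type) [AddCommGroup Y] [Module R Y], Function.Injective (LinearMap.lTensor Y i) := by
  obtain ⟨N, h1, h2, h3, h4, h5, h6⟩ := theSetup.rd.gen theSetup.bot theSetup.hbot theSetup.tK theSetup.tK_ne
    theSetup.vK_tK_lt theSetup.TK theSetup.TK_ne theSetup.vK_TK_lt
  refine ⟨theSetup.RR, inferInstance, theSetup.rd.chain, N, h1, h2, h3, h4, h5, ?_, ?_⟩
  · intro X _ _ g hg
    obtain ⟨h, hh⟩ := h5.out g (pure_inj g hg) LinearMap.id
    exact ⟨h, LinearMap.ext hh⟩
  · rintro M _ _ hM hMn ⟨i, hi⟩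
    obtain ⟨r, hr1, hr2⟩ := h6 M hM hMn i hi
    obtain ⟨A, hA, hA2⟩ := theSetup.cocycle r hr1 hr2
    exact theSetup.no_split comb A hA hA2

end Pool.Agent.Results.MP_aa9b56_al.NoPureUniserial
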